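import Mathlib
import Pool.Agent.W262.SH.StmB

/-!
# SB-PHI: the Tate-Shafarevich group over a multiquadratic field and the twists

Project SHB (helper262).
-/

set_option autoImplicit false
set_option linter.all false

namespace Pool.Agent.W736.SH.PHI

open WeierstrassCurve Pool.Agent.W262.SH

open scoped Classical Topology

/-- the absolute Galois group of `ℚ` -/
abbrev GQ : Type := QB ≃ₐ[ℚ] QB

/-! ### the action on points -/

theorem act_act (W : WeierstrassCurve ℚ) {F L M : Type} [Field F] [Field L] [Field M] [Algebra ℚ F]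
    [Algebra ℚ L] [Algebra ℚ M] (φ : F →ₐ[ℚ] L) (ψ : L →ₐ[ℚ] M) (P : Pt W F) :
    act W ψ (act W φ P) = act W (ψ.comp φ) P := by
  cases P <;> rfl

theorem act_id (W : WeierstrassCurve ℚ) {F : Type} [Field F] [Algebra ℚ F] (P : Pt W F) :
    act W (AlgHom.id ℚ F) P = P := by
  cases P <;> rfl

/-- the action of the absolute Galois group on the points -/
@[reducible] noncomputable def dma (W : WeierstrassCurve ℚ) : DistribMulAction GQ (Pt W QB) where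
  smul σ P := act W σ.toAlgHom P
  one_smul P := act_id W P
  mul_smul σ τ P := (act_act W τ.toAlgHom σ.toAlgHom P).symm
  smul_zero σ := map_zero _
  smul_add σ P Q := map_add _ _ _

/-- compatible pairs -/
noncomputable def Del (K : Type) [Field K] [Algebra ℚ K] (ι : QB →ₐ[ℚ] AlgebraicClosure K) :
    Subgroup ((AlgebraicClosure K ≃ₐ[K] AlgebraicClosure K) × GQ) where
  carrier := {x | (x.1.toAlgHom.restrictScalars ℚ).comp ι = ι.comp x.2.toAlgHom}
  one_mem' := by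
    ext x
    rfl
  mul_mem' := by
    rintro ⟨τ, σ⟩ ⟨τ', σ'⟩ h h'
    have h1 : ∀ x, τ (ι x) = ι (σ x) := fun x => DFunLike.congr_fun h x
    have h2 : ∀ x, τ' (ι x) = ι (σ' x) := fun x => DFunLike.congr_fun h' x
    ext x
    show τ (τ' (ι x)) = ι (σ (σ' x))
    rw [h2, h1]
  inv_mem' := by
    rintro ⟨τ, σ⟩ h
    have h1 : ∀ x, τ (ι x) = ι (σ x) := fun x => DFunLike.congr_fun h x
    ext x
    show τ.symm (ι x) = ι (σ.symm x)
    rw [AlgEquiv.symm_apply_eq, h1, AlgEquiv.apply_symm_apply]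

/-- the action of the compatible pairs -/
@[reducible] noncomputable def dmaD (W : WeierstrassCurve ℚ) (K : Type) [Field K] [Algebra ℚ K]
    (ι : QB →ₐ[ℚ] AlgebraicClosure K) : DistribMulAction (Del K ι) (Pt W (AlgebraicClosure K)) where
  smul δ P := act W (δ.1.1.toAlgHom.restrictScalars ℚ) P
  one_smul P := act_id W P
  mul_smul δ δ' P := (act_act W (δ'.1.1.toAlgHom.restrictScalars ℚ)
    (δ.1.1.toAlgHom.restrictScalars ℚ) P).symm
  smul_zero σ := map_zero _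
  smul_add σ P Q := map_add _ _ _

/-! ### the quadratic characters -/

theorem cast_inj {r : QB} (hr : r ≠ 0) {a b : ℤˣ}
    (h : (((a : ℤˣ) : ℤ) : QB) * r = (((b : ℤˣ) : ℤ) : QB) * r) : a = b := by
  have h1 := mul_right_cancel₀ hr h
  have h2 : ((a : ℤˣ) : ℤ) = ((b : ℤˣ) : ℤ) := by exact_mod_cast h1
  exact Units.ext h2

theorem root_or {r : QB} {d : ℤ} (h : r ^ 2 = (d : QB)) (σ : GQ) : σ r = r ∨ σ r = -r := by
  have h1 : σ r ^ 2 = r ^ 2 := by
    rw [← map_pow, h, map_intCast]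
  exact sq_eq_sq_iff_eq_or_eq_neg.1 h1

/-- the value of the quadratic character -/
noncomputable def chv (r : QB) (σ : GQ) : ℤˣ := if σ r = r then 1 else -1

theorem chv_spec {r : QB} {d : ℤ} (h : r ^ 2 = (d : QB)) (σ : GQ) :
    σ r = (((chv r σ : ℤˣ) : ℤ) : QB) * r := by
  unfold chv
  split_ifs with h1
  · rw [h1]; simp
  · rcases root_or h σ with h2 | h2
    · exact absurd h2 h1
    · rw [h2]; simp

/-- the quadratic character -/
noncomputable def chi (r : QB) (hr : r ≠ 0) (d : ℤ) (h : r ^ 2 = (d : QB)) : GQ →* ℤˣ where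
  toFun := chv r
  map_one' := by
    unfold chv
    exact if_pos rfl
  map_mul' σ τ := by
    apply cast_inj hr
    rw [← chv_spec h, AlgEquiv.mul_apply, chv_spec h τ, map_mul, map_intCast, chv_spec h σ]
    push_cast
    ring

section chars

variable {n : ℕ} (D : Fin n → ℤ) (ρ : Fin n → QB) (h0 : ∀ i, ρ i ≠ 0)
  (hρ : ∀ i, ρ i ^ 2 = (D i : QB))

/-- the sign characters -/
noncomputable def eps (S : Finset (Fin n)) : GQ →* ℤˣ :=
  ∏ i ∈ S, chi (ρ i) (h0 i) (D i) (hρ i)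

theorem eps_apply (S : Finset (Fin n)) (σ : GQ) :
    eps D ρ h0 hρ S σ = ∏ i ∈ S, chv (ρ i) σ := by
  unfold eps
  rw [MonoidHom.finset_prod_apply]
  rfl

theorem eps_spec (S : Finset (Fin n)) (σ : GQ) :
    σ (∏ i ∈ S, ρ i) = (((eps D ρ h0 hρ S σ : ℤˣ) : ℤ) : QB) * ∏ i ∈ S, ρ i := by
  rw [eps_apply, map_prod, Units.coe_prod, Int.cast_prod, ← Finset.prod_mul_distrib]
  exact Finset.prod_congr rfl fun i _ => chv_spec (hρ i) σ

include hρ in
theorem mem_fix (σ : GQ) : σ ∈ (KD D).fixingSubgroup ↔ ∀ i, σ (ρ i) = ρ i := by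
  rw [IntermediateField.mem_fixingSubgroup_iff]
  constructor
  · intro h i
    exact h _ (IntermediateField.subset_adjoin ℚ _ ⟨i, hρ i⟩)
  · intro h x hx
    unfold KD at hx
    induction hx using IntermediateField.adjoin_induction with
    | mem r hr =>
      obtain ⟨i, hi⟩ := hr
      have h1 : r ^ 2 = ρ i ^ 2 := by rw [hi, hρ i]
      rcases sq_eq_sq_iff_eq_or_eq_neg.1 h1 with h2 | h2
      · rw [h2, h i]
      · rw [h2, map_neg, h i]
    | algebraMap x => exact σ.commutes x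
    | add x y _ _ hx hy => rw [map_add, hx, hy]
    | inv x _ hx => rw [map_inv₀, hx]
    | mul x y _ _ hx hy => rw [map_mul, hx, hy]

theorem eps_one (S : Finset (Fin n)) (σ : GQ) (hσ : σ ∈ (KD D).fixingSubgroup) :
    eps D ρ h0 hρ S σ = 1 := by
  rw [eps_apply]
  refine Finset.prod_eq_one fun i _ => ?_
  unfold chv
  rw [if_pos ((mem_fix D ρ hρ σ).1 hσ i)]

theorem eps_sum (σ : GQ) (hσ : σ ∉ (KD D).fixingSubgroup) :
    ∑ S : Finset (Fin n), ((eps D ρ h0 hρ S σ : ℤˣ) : ℤ) = 0 := by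
  rw [mem_fix D ρ hρ] at hσ
  push Not at hσ
  obtain ⟨i, hi⟩ := hσ
  have h1 : ∑ S : Finset (Fin n), ((eps D ρ h0 hρ S σ : ℤˣ) : ℤ) =
      ∏ i : Fin n, (1 + ((chv (ρ i) σ : ℤˣ) : ℤ)) := by
    rw [Finset.prod_one_add, Finset.powerset_univ]
    refine Finset.sum_congr rfl fun S _ => ?_
    rw [eps_apply, Units.coe_prod]
  rw [h1]
  apply Finset.prod_eq_zero (Finset.mem_univ i)
  unfold chv
  rw [if_neg hi]
  simp

theorem fix_ker : (KD D).fixingSubgroup =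
    (MonoidHom.pi fun i => chi (ρ i) (h0 i) (D i) (hρ i)).ker := by
  ext σ
  rw [mem_fix D ρ hρ, MonoidHom.mem_ker]
  constructor
  · intro h
    funext i
    show chv (ρ i) σ = 1
    unfold chv
    rw [if_pos (h i)]
  · intro h i
    have h1 : chv (ρ i) σ = 1 := congrFun h i
    have h2 := chv_spec (hρ i) σ
    rw [h1] at h2
    simpa using h2

include h0 hρ in
theorem fix_normal : ((KD D).fixingSubgroup).Normal := by
  rw [fix_ker D ρ h0 hρ]
  infer_instance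

include h0 hρ in
theorem fix_finite : Finite (GQ ⧸ (KD D).fixingSubgroup) := by
  rw [fix_ker D ρ h0 hρ]
  exact Finite.of_injective _ (QuotientGroup.kerLift_injective
    (MonoidHom.pi fun i => chi (ρ i) (h0 i) (D i) (hρ i)))

include hρ in
theorem fix_open : IsOpen (((KD D).fixingSubgroup : Subgroup GQ) : Set GQ) := by
  have hfin : Set.Finite {r : QB | ∃ i, r ^ 2 = (D i : QB)} := by
    refine Set.Finite.subset (((Set.finite_range ρ).union (Set.finite_range fun i => - ρ i))) ?_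
    rintro r ⟨i, hi⟩
    have h1 : r ^ 2 = ρ i ^ 2 := by rw [hi, hρ i]
    rcases sq_eq_sq_iff_eq_or_eq_neg.1 h1 with h2 | h2
    · exact Or.inl ⟨i, h2.symm⟩
    · exact Or.inr ⟨i, h2.symm⟩
  have : Finite {r : QB | ∃ i, r ^ 2 = (D i : QB)} := hfin
  have : Algebra.IsAlgebraic ℚ QB := AlgebraicClosure.isAlgebraic ℚ
  have : FiniteDimensional ℚ (KD D) :=
    IntermediateField.finiteDimensional_adjoin fun x _ =>
      (Algebra.IsAlgebraic.isAlgebraic x).isIntegral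
  exact IntermediateField.fixingSubgroup_isOpen (KD D)

end chars

/-! ### the corestriction -/

section corr

variable {M : Type} [AddCommGroup M] [DistribMulAction GQ M]

/-- extension by zero -/
noncomputable def ext0 (H : Subgroup GQ) (f : H → M) (g : GQ) : M :=
  if h : g ∈ H then f ⟨g, h⟩ else 0

theorem ext0_mem (H : Subgroup GQ) (f : H → M) {g : GQ} (h : g ∈ H) : ext0 H f g = f ⟨g, h⟩ :=
  dif_pos h

theorem ext0_not (H : Subgroup GQ) (f : H → M) {g : GQ} (h : g ∉ H) : ext0 H f g = 0 :=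
  dif_neg h

theorem ext0_add (H : Subgroup GQ) (f f' : H → M) : ext0 H (f + f') = ext0 H f + ext0 H f' := by
  funext g
  by_cases h : g ∈ H
  · rw [Pi.add_apply, ext0_mem H _ h, ext0_mem H _ h, ext0_mem H _ h, Pi.add_apply]
  · rw [Pi.add_apply, ext0_not H _ h, ext0_not H _ h, ext0_not H _ h, add_zero]

theorem cor_add (H : Subgroup GQ) [Fintype (GQ ⧸ H)] (ε : GQ →* ℤˣ) (f f' : GQ → M) (σ : GQ) :
    cor H ε (f + f') σ = cor H ε f σ + cor H ε f' σ := by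
  unfold cor
  rw [← Finset.sum_add_distrib]
  refine Finset.sum_congr rfl fun q _ => ?_
  rw [Pi.add_apply, smul_add, smul_add]

theorem ext0_loc (H : Subgroup GQ) (hH : IsOpen (H : Set GQ)) (f : H → M)
    (hf : IsLocallyConstant f) (x : GQ) : ∀ᶠ y in 𝓝 x, ext0 H f y = ext0 H f x := by
  by_cases h : x ∈ H
  · have h1 : ∀ᶠ y in 𝓝 (⟨x, h⟩ : H), f y = f ⟨x, h⟩ :=
      (IsLocallyConstant.iff_eventually_eq f).1 hf ⟨x, h⟩
    have h2 : Filter.map ((↑) : H → GQ) (𝓝 (⟨x, h⟩ : H)) = 𝓝 x :=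
      hH.isOpenEmbedding_subtypeVal.map_nhds_eq ⟨x, h⟩
    rw [← h2, Filter.eventually_map]
    filter_upwards [h1] with y hy
    rw [ext0_mem H f h, ext0_mem H f y.2]
    exact hy
  · have h1 : IsClosed (H : Set GQ) := Subgroup.isClosed_of_isOpen H hH
    filter_upwards [h1.isOpen_compl.mem_nhds h] with y hy
    rw [ext0_not H f h, ext0_not H f hy]

theorem smul_loc (H : Subgroup GQ) (hH : IsOpen (H : Set GQ)) (x : GQ) (q : GQ ⧸ H) :
    ∀ᶠ y in 𝓝 x, y • q = x • q := by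
  have hc : Continuous fun y : GQ => (x * q.out)⁻¹ * (y * q.out) := by fun_prop
  have h1 : (fun y : GQ => (x * q.out)⁻¹ * (y * q.out)) ⁻¹' (H : Set GQ) ∈ 𝓝 x := by
    refine (hH.preimage hc).mem_nhds ?_
    show (x * q.out)⁻¹ * (x * q.out) ∈ H
    rw [inv_mul_cancel]
    exact H.one_mem
  filter_upwards [h1] with y hy
  have h2 : ((x * q.out : GQ) : GQ ⧸ H) = ((y * q.out : GQ) : GQ ⧸ H) := QuotientGroup.eq.2 hy
  have h3 : ∀ z : GQ, z • q = ((z * q.out : GQ) : GQ ⧸ H) := by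
    intro z
    conv_lhs => rw [← QuotientGroup.out_eq' q]
    rfl
  rw [h3, h3, h2]

theorem cor_loc (H : Subgroup GQ) (hH : IsOpen (H : Set GQ)) [Fintype (GQ ⧸ H)] (ε : GQ →* ℤˣ)
    (f : GQ → M) (hf : ∀ x, ∀ᶠ y in 𝓝 x, f y = f x) (x : GQ) :
    ∀ᶠ y in 𝓝 x, cor H ε f y = cor H ε f x := by
  have h1 : ∀ᶠ y in 𝓝 x, ∀ q : GQ ⧸ H, y • q = x • q :=
    Filter.eventually_all.2 fun q => smul_loc H hH x q
  have h2 : ∀ᶠ y in 𝓝 x, ∀ q : GQ ⧸ H, f ((x • q).out⁻¹ * y * q.out) =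
      f ((x • q).out⁻¹ * x * q.out) := by
    refine Filter.eventually_all.2 fun q => ?_
    have hc : Continuous fun y : GQ => (x • q).out⁻¹ * y * q.out := by fun_prop
    exact hc.continuousAt.eventually (hf _)
  filter_upwards [h1, h2] with y h3 h4
  unfold cor
  refine Finset.sum_congr rfl fun q _ => ?_
  rw [h3 q, h4 q]

end corr

/-! ### the twist -/

/-- the properties of the twist -/
def IsTw (A B d : ℤ)
    (θ : ∀ (L : Type) [Field L] [Algebra ℚ L], L → Pt (E A B) L → Pt (E (d * A) (d * B)) L) : Prop :=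
  ∀ (L : Type) [Field L] [Algebra ℚ L] (s : L), s ^ 2 = (d : L) →
    (∀ P Q, θ L s (P + Q) = θ L s P + θ L s Q) ∧ Function.Bijective (θ L s) ∧
    (∀ P, θ L (-s) P = - θ L s P) ∧
    ∀ (L' : Type) [Field L'] [Algebra ℚ L'] (φ : L →ₐ[ℚ] L') (P : Pt (E A B) L),
      act (E (d * A) (d * B)) φ (θ L s P) = θ L' (φ s) (act (E A B) φ P)

section tw

variable {A B d : ℤ}
  {θ : ∀ (L : Type) [Field L] [Algebra ℚ L], L → Pt (E A B) L → Pt (E (d * A) (d * B)) L}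

/-- the twist as a homomorphism -/
noncomputable def twh (hθ : IsTw A B d θ) (L : Type) [Field L] [Algebra ℚ L] (s : L)
    (hs : s ^ 2 = (d : L)) : Pt (E A B) L →+ Pt (E (d * A) (d * B)) L :=
  AddMonoidHom.mk' (θ L s) (hθ L s hs).1

theorem twh_eps (hθ : IsTw A B d θ) (L : Type) [Field L] [Algebra ℚ L] (s : L)
    (hs : s ^ 2 = (d : L)) (e : ℤˣ) (P : Pt (E A B) L) :
    θ L ((((e : ℤˣ) : ℤ) : L) * s) P = ((e : ℤˣ) : ℤ) • θ L s P := by
  rcases Int.units_eq_one_or e with rfl | rfl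
  · simp
  · simp [(hθ L s hs).2.2.1 P]

theorem twh_sub (hθ : IsTw A B d θ) (L : Type) [Field L] [Algebra ℚ L] (s : L)
    (hs : s ^ 2 = (d : L)) (P Q : Pt (E A B) L) : θ L s (P - Q) = θ L s P - θ L s Q :=
  map_sub (twh hθ L s hs) P Q

theorem twh_smul (hθ : IsTw A B d θ) (L : Type) [Field L] [Algebra ℚ L] (s : L)
    (hs : s ^ 2 = (d : L)) (k : ℤ) (P : Pt (E A B) L) : θ L s (k • P) = k • θ L s P :=
  map_zsmul (twh hθ L s hs) k P

attribute [local instance] dma dmaD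

variable (hθ : IsTw A B d θ) (K : IntermediateField ℚ QB)
  (hK : IsOpen ((K.fixingSubgroup : Subgroup GQ) : Set GQ)) [Fintype (GQ ⧸ K.fixingSubgroup)]
  (ε : GQ →* ℤˣ) (hε : ∀ h ∈ K.fixingSubgroup, ε h = 1) (r : QB) (hr : r ^ 2 = (d : QB))
  (hσ : ∀ σ : GQ, σ r = (((ε σ : ℤˣ) : ℤ) : QB) * r)

/-- the corestriction on points -/
noncomputable def cc (f : K.fixingSubgroup → Pt (E A B) QB) (σ : GQ) : Pt (E A B) QB :=
  cor K.fixingSubgroup ε (ext0 K.fixingSubgroup f) σ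

theorem cc_add (f f' : K.fixingSubgroup → Pt (E A B) QB) (σ : GQ) :
    cc K ε (f + f') σ = cc K ε f σ + cc K ε f' σ := by
  unfold cc
  rw [ext0_add, cor_add]

theorem ext_coc (f : K.fixingSubgroup → Pt (E A B) QB)
    (hf : ∀ σ τ, f (σ * τ) = f σ + act (E A B) (σ : QB ≃ₐ[ℚ] QB).toAlgHom (f τ)) :
    ∀ σ ∈ K.fixingSubgroup, ∀ τ ∈ K.fixingSubgroup, ext0 K.fixingSubgroup f (σ * τ) =
      ext0 K.fixingSubgroup f σ + σ • ext0 K.fixingSubgroup f τ := by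
  intro σ h τ h'
  rw [ext0_mem _ f h, ext0_mem _ f h', ext0_mem _ f (mul_mem h h')]
  exact hf ⟨σ, h⟩ ⟨τ, h'⟩

include hθ hr hσ in
theorem act_th (σ : GQ) (P : Pt (E A B) QB) :
    act (E (d * A) (d * B)) σ.toAlgHom (θ QB r P) =
      ((ε σ : ℤˣ) : ℤ) • θ QB r (act (E A B) σ.toAlgHom P) := by
  rw [(hθ QB r hr).2.2.2 QB σ.toAlgHom P]
  have h1 : σ.toAlgHom r = (((ε σ : ℤˣ) : ℤ) : QB) * r := hσ σ
  rw [h1, twh_eps hθ QB r hr]

include hθ hε hr hσ in
theorem loc_triv (hA : ABSC) (f : K.fixingSubgroup → Pt (E A B) QB)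
    (hf : ∀ σ τ, f (σ * τ) = f σ + act (E A B) (σ : QB ≃ₐ[ℚ] QB).toAlgHom (f τ))
    (k : Type) [Field k] [Algebra ℚ k] (h : LocTrivK (E A B) K k f) :
    LocTriv (E (d * A) (d * B)) k (fun σ => θ QB r (cc K ε f σ)) := by
  intro ι
  obtain ⟨_, _, _, a4⟩ := hA GQ (Pt (E A B) QB) K.fixingSubgroup (ext0 K.fixingSubgroup f)
    (ext_coc K f hf)
  have h5 := a4 (Del k ι) (Pt (E A B) (AlgebraicClosure k))
    ((MonoidHom.snd _ _).comp (Del k ι).subtype) (act (E A B) ι) ?_ ?_ ε hε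
  · obtain ⟨P, hP⟩ := h5
    refine ⟨θ (AlgebraicClosure k) (ι r) P, fun τ σ hc => ?_⟩
    have hP' : act (E A B) ι (cc K ε f σ) = ((ε σ : ℤˣ) : ℤ) •
        (act (E A B) (τ.toAlgHom.restrictScalars ℚ) P) - P := hP ⟨(τ, σ), hc⟩
    have hir : (ι r) ^ 2 = (d : AlgebraicClosure k) := by rw [← map_pow, hr, map_intCast]
    beta_reduce
    rw [(hθ QB r hr).2.2.2 _ ι, hP', twh_sub hθ _ _ hir, twh_smul hθ _ _ hir,
      (hθ _ (ι r) hir).2.2.2 _ (τ.toAlgHom.restrictScalars ℚ) P]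
    congr 1
    have h6 : (τ.toAlgHom.restrictScalars ℚ) (ι r) =
        ((((ε σ : ℤˣ) : ℤ)) : AlgebraicClosure k) * ι r := by
      have h7 : (τ.toAlgHom.restrictScalars ℚ) (ι r) = ι (σ r) := DFunLike.congr_fun hc r
      rw [h7, hσ, map_mul, map_intCast]
    rw [h6, twh_eps hθ _ _ hir]
  · intro δ m
    show act (E A B) ι (act (E A B) δ.1.2.toAlgHom m) =
      act (E A B) (δ.1.1.toAlgHom.restrictScalars ℚ) (act (E A B) ι m)
    rw [act_act, act_act]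
    have h6 : (δ.1.1.toAlgHom.restrictScalars ℚ).comp ι = ι.comp δ.1.2.toAlgHom := δ.2
    rw [h6]
  · intro g
    obtain ⟨P, hP⟩ := h (ι.comp g.toAlgHom)
    refine ⟨P, fun δ x hx hg => ?_⟩
    rw [ext0_mem _ f hx]
    have h6 : (δ.1.1.toAlgHom.restrictScalars ℚ).comp ι = ι.comp δ.1.2.toAlgHom := δ.2
    have h7 := hP δ.1.1 ⟨x, hx⟩ (by
      ext z
      have h8 : (δ.1.1.toAlgHom.restrictScalars ℚ) (ι (g z)) = ι (δ.1.2 (g z)) :=
        DFunLike.congr_fun h6 (g z)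
      have h9 : δ.1.2 (g z) = g (x z) := DFunLike.congr_fun hg z
      show (δ.1.1.toAlgHom.restrictScalars ℚ) (ι (g z)) = ι (g (x z))
      rw [h8, h9])
    show act (E A B) ι (act (E A B) g.toAlgHom (f ⟨x, hx⟩)) = _
    rw [act_act]
    exact h7

include hθ hε hr hσ hK in
theorem mem_sha (hA : ABSC) (f : K.fixingSubgroup → Pt (E A B) QB)
    (hf : f ∈ shaCocK (E A B) K) :
    (fun σ => θ QB r (cc K ε f σ)) ∈ shaCoc (E (d * A) (d * B)) := by
  obtain ⟨⟨hf1, hf2⟩, hf3, hf4⟩ := hf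
  refine ⟨⟨?_, ?_⟩, ?_, ?_⟩
  · rw [IsLocallyConstant.iff_eventually_eq]
    intro x
    filter_upwards [cor_loc K.fixingSubgroup hK ε _ (ext0_loc _ hK f hf1) x] with y hy
    unfold cc
    rw [hy]
  · intro σ τ
    obtain ⟨a1, _⟩ := hA GQ (Pt (E A B) QB) K.fixingSubgroup (ext0 K.fixingSubgroup f)
      (ext_coc K f hf2)
    have h1 : cc K ε f (σ * τ) = cc K ε f σ +
        ((ε σ : ℤˣ) : ℤ) • act (E A B) σ.toAlgHom (cc K ε f τ) := a1 ε hε σ τ
    beta_reduce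
    rw [act_th hθ ε r hr hσ, h1, (hθ QB r hr).1, twh_smul hθ QB r hr]
  · intro p _
    exact loc_triv hθ K ε hε r hr hσ hA f hf2 _ (hf3 p)
  · exact loc_triv hθ K ε hε r hr hσ hA f hf2 _ hf4

include hθ hε hr hσ in
theorem cob_th (hA : ABSC) (f : K.fixingSubgroup → Pt (E A B) QB)
    (hf : ∀ σ τ, f (σ * τ) = f σ + act (E A B) (σ : QB ≃ₐ[ℚ] QB).toAlgHom (f τ))
    (hfc : f ∈ cobK (E A B) K) :
    (fun σ => θ QB r (cc K ε f σ)) ∈ cob (E (d * A) (d * B)) := by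
  obtain ⟨P, hP⟩ := hfc
  obtain ⟨_, a2, _⟩ := hA GQ (Pt (E A B) QB) K.fixingSubgroup (ext0 K.fixingSubgroup f)
    (ext_coc K f hf)
  obtain ⟨Q, hQ⟩ := a2 ε hε ⟨P, fun h hh => by rw [ext0_mem _ f hh]; exact hP ⟨h, hh⟩⟩
  refine ⟨θ QB r Q, fun σ => ?_⟩
  have h1 : cc K ε f σ = ((ε σ : ℤˣ) : ℤ) • act (E A B) σ.toAlgHom Q - Q := hQ σ
  beta_reduce
  rw [act_th hθ ε r hr hσ, h1, twh_sub hθ QB r hr, twh_smul hθ QB r hr]

include hθ hr hσ in
theorem ker_th (f : K.fixingSubgroup → Pt (E A B) QB)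
    (h : (fun σ => θ QB r (cc K ε f σ)) ∈ cob (E (d * A) (d * B))) :
    ∃ P, ∀ σ : GQ, cc K ε f σ = ((ε σ : ℤˣ) : ℤ) • act (E A B) σ.toAlgHom P - P := by
  obtain ⟨Q, hQ⟩ := h
  obtain ⟨P, rfl⟩ := (hθ QB r hr).2.1.2 Q
  refine ⟨P, fun σ => (hθ QB r hr).2.1.1 ?_⟩
  rw [twh_sub hθ QB r hr, twh_smul hθ QB r hr, ← act_th hθ ε r hr hσ]
  exact hQ σ

end tw

attribute [local instance] dma dmaD

theorem phi (hA : ABSC) (hT : TWI) : PHI := by
  intro n D A B hA0 hB0 hAB hD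
  have hex : ∀ i, ∃ r : QB, r ^ 2 = (D i : QB) := fun i =>
    IsAlgClosed.exists_pow_nat_eq (D i : QB) (by norm_num)
  choose ρ hρ using hex
  have h0 : ∀ i, ρ i ≠ 0 := by
    intro i h
    have h1 := hρ i
    rw [h] at h1
    have h2 : ((D i : ℤ) : QB) = 0 := by rw [← h1]; norm_num
    exact hD i (by exact_mod_cast h2)
  have hTS : ∀ S : Finset (Fin n), ∃ θ : ∀ (L : Type) [Field L] [Algebra ℚ L], L → Pt (E A B) L →
      Pt (E ((∏ i ∈ S, D i) * A) ((∏ i ∈ S, D i) * B)) L, IsTw A B (∏ i ∈ S, D i) θ := fun S =>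
    hT A B _ hA0 hB0 hAB (Finset.prod_ne_zero_iff.2 fun i _ => hD i)
  choose θ hθ using hTS
  have hfin := fix_finite D ρ h0 hρ
  have hft : Fintype (GQ ⧸ (KD D).fixingSubgroup) := Fintype.ofFinite _
  have hopen := fix_open D ρ hρ
  have hr : ∀ S : Finset (Fin n), (∏ i ∈ S, ρ i) ^ 2 = (((∏ i ∈ S, D i : ℤ)) : QB) := by
    intro S
    rw [← Finset.prod_pow, Int.cast_prod]
    exact Finset.prod_congr rfl fun i _ => hρ i
  have hσ := fun S => eps_spec D ρ h0 hρ S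
  have hε := fun S => eps_one D ρ h0 hρ S
  let φ : ∀ S : Finset (Fin n), shaCocK (E A B) (KD D) →+
      shaCoc (E ((∏ i ∈ S, D i) * A) ((∏ i ∈ S, D i) * B)) := fun S =>
    AddMonoidHom.mk' (fun f => ⟨fun σ => θ S QB (∏ i ∈ S, ρ i) (cc (KD D) (eps D ρ h0 hρ S) f.1 σ),
      mem_sha (hθ S) (KD D) hopen _ (hε S) _ (hr S) (hσ S) hA f.1 f.2⟩) (by
      intro f f'
      apply Subtype.ext
      funext σ
      show θ S QB (∏ i ∈ S, ρ i) (cc (KD D) (eps D ρ h0 hρ S) (f.1 + f'.1) σ) =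
        θ S QB (∏ i ∈ S, ρ i) (cc (KD D) (eps D ρ h0 hρ S) f.1 σ) +
        θ S QB (∏ i ∈ S, ρ i) (cc (KD D) (eps D ρ h0 hρ S) f'.1 σ)
      rw [cc_add, (hθ S QB _ (hr S)).1])
  have hφ : ∀ S, (cobK (E A B) (KD D)).addSubgroupOf (shaCocK (E A B) (KD D)) ≤
      AddSubgroup.comap (φ S) ((cob (E ((∏ i ∈ S, D i) * A) ((∏ i ∈ S, D i) * B))).addSubgroupOf
        (shaCoc (E ((∏ i ∈ S, D i) * A) ((∏ i ∈ S, D i) * B)))) := by
    intro S f hf
    exact cob_th (hθ S) (KD D) _ (hε S) _ (hr S) (hσ S) hA f.1 f.2.1.2 hf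
  refine ⟨Pi.addMonoidHom fun S => QuotientAddGroup.map _ _ (φ S) (hφ S), ?_⟩
  intro c
  obtain ⟨f, rfl⟩ := QuotientAddGroup.mk_surjective c
  intro hc
  have h1 : ∀ S, ∃ P, ∀ σ : GQ, cc (KD D) (eps D ρ h0 hρ S) f.1 σ =
      ((eps D ρ h0 hρ S σ : ℤˣ) : ℤ) • act (E A B) σ.toAlgHom P - P := by
    intro S
    refine ker_th (hθ S) (KD D) _ _ (hr S) (hσ S) f.1 ?_
    have h2 : (QuotientAddGroup.map _ _ (φ S) (hφ S)) (f : ShaK (E A B) (KD D)) = 0 := congrFun hc S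
    rw [QuotientAddGroup.map_mk, QuotientAddGroup.eq_zero_iff] at h2
    exact h2
  choose P hP using h1
  obtain ⟨_, _, a3, _⟩ := hA GQ (Pt (E A B) QB) (KD D).fixingSubgroup
    (ext0 (KD D).fixingSubgroup f.1) (ext_coc (KD D) f.1 f.2.1.2)
  obtain ⟨Q, hQ⟩ := a3 (fix_normal D ρ h0 hρ) (Finset (Fin n)) (eps D ρ h0 hρ) hε
    (fun g hg => eps_sum D ρ h0 hρ g hg)
  have h3 : (2 ^ n) • f ∈ (cobK (E A B) (KD D)).addSubgroupOf (shaCocK (E A B) (KD D)) := by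
    show ∃ R, ∀ σ : (KD D).fixingSubgroup, ((2 ^ n) • f.1) σ =
      act (E A B) (σ : QB ≃ₐ[ℚ] QB).toAlgHom R - R
    refine ⟨∑ S, P S - Q, fun σ => ?_⟩
    have h4 := hQ σ.1 σ.2
    have h5 : ∑ S : Finset (Fin n), cor (KD D).fixingSubgroup (eps D ρ h0 hρ S)
        (ext0 (KD D).fixingSubgroup f.1) σ.1 =
        ∑ S : Finset (Fin n), (act (E A B) (σ : QB ≃ₐ[ℚ] QB).toAlgHom (P S) - P S) := by
      refine Finset.sum_congr rfl fun S _ => ?_
      have h6 := hP S σ.1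
      rw [hε S σ.1 σ.2, Units.val_one, one_smul] at h6
      exact h6
    rw [h5, ext0_mem _ f.1 σ.2, Fintype.card_finset, Fintype.card_fin, Finset.sum_sub_distrib,
      ← map_sum] at h4
    have h7 : act (E A B) (σ : QB ≃ₐ[ℚ] QB).toAlgHom (∑ S, P S) - ∑ S, P S =
        (2 ^ n) • f.1 σ + (act (E A B) (σ : QB ≃ₐ[ℚ] QB).toAlgHom Q - Q) := h4
    rw [Pi.smul_apply, map_sub]
    have h8 : (2 ^ n) • f.1 σ = (act (E A B) (σ : QB ≃ₐ[ℚ] QB).toAlgHom (∑ S, P S) - ∑ S, P S) -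
        (act (E A B) (σ : QB ≃ₐ[ℚ] QB).toAlgHom Q - Q) := by
      rw [h7]; abel
    rw [h8]
    abel
  have h9 : (2 ^ n) • (f : ShaK (E A B) (KD D)) = (((2 ^ n) • f : shaCocK (E A B) (KD D)) :
      ShaK (E A B) (KD D)) := rfl
  rw [h9, QuotientAddGroup.eq_zero_iff]
  exact h3

end Pool.Agent.W736.SH.PHI
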